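import Pool.Agent.Helper27.DynMod.FunField
import Pool.Agent.Helper27.DynMod.GenType

set_option autoImplicit false

namespace Pool.Agent.Results.MP_6aac57_ag.RationalComponents

open Pool.Agent.Helper27.DynMod

/-- The irreducible subvariety `Z` of `M_d^N[n]` is of general type: its function field is a field
of general type over `ℂ`. -/
def OfGeneralType {N d n : ℕ} (Z : Set (ModuliPt N d n)) : Prop :=
  ∃ (K : Type) (_ : Field K) (_ : Algebra ℂ K), IsFunctionField Z K ∧ IsGeneralType K

/-- For all `N ≥ 2` and `d ≥ 2` there is an irreducible closed subvariety `Γ` of `M_d^N` such that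
for every `n ≥ 1` some irreducible component `Z` of `i_n⁻¹(Γ)` is a rational curve (its function
field is isomorphic to `ℂ(t)`) and is not of general type. -/
theorem result (N d : ℕ) (hN : 2 ≤ N) (hd : 2 ≤ d) :
    ∃ Γ : Set (Moduli N d), IsClosed Γ ∧ IsIrreducible Γ ∧ ∀ n : ℕ, 1 ≤ n →
      ∃ Z : Set (ModuliPt N d n),
        Maximal (fun S : Set (ModuliPt N d n) => IsIrreducible S ∧ S ⊆ forget N d n ⁻¹' Γ) Z ∧
        IsFunctionField Z (RatFunc ℂ) ∧ ¬ OfGeneralType Z := by
  refine ⟨Gam hN hd, isClosed_closure, isIrreducible_Gam hN hd, fun n hn => ?_⟩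
  refine ⟨Zcomp hN hd hn, maximal_Zcomp hN hd hn, isFunctionField_Zcomp hN hd hn, ?_⟩
  rintro ⟨K, hK, hA, hF, hG⟩
  obtain ⟨e⟩ := hF.unique (isFunctionField_Zcomp hN hd hn)
  exact not_isGeneralType e hG

end Pool.Agent.Results.MP_6aac57_ag.RationalComponents
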